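import Pool.Agent.W91.BH.Stm2
import Pool.Agent.W937.BH.Frost

namespace Pool.Agent.W937.BH

open MeasureTheory

theorem fro : Pool.Agent.W91.BH.S_FRO := by
  intro n e K he hK hne hpos
  have h : Pool.Agent.H744R2.Falc.Fro K e := by
    rcases he.eq_or_lt with rfl | he0
    · exact Pool.Agent.H744R2.Falc.fro_zero K hK.measurableSet hne
    · exact frostman_haus n K hK e he (hpos he0)
  obtain ⟨μ, h1, h2, C, h3, h4⟩ := h
  exact ⟨μ, C, h1, h2, h3, h4⟩

end Pool.Agent.W937.BH
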